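import Pool.Agent.Y315.NL.Stm2

/-!
# Project NL: summation over strips
-/

set_option autoImplicit false

open MeasureTheory Set Filter Topology
open scoped ContDiff ENNReal

noncomputable section

namespace Pool.Agent.Y419.NL

open Pool.Agent.Y315.NL

/-- a lower bound for `|x|` on `[k, k+1]` -/
def mk (k : ℤ) : ℕ := if 0 ≤ k then k.toNat else (-k - 1).toNat

theorem mk_nat (n : ℕ) : mk (n : ℤ) = n := by
  unfold mk
  rw [if_pos (by positivity)]
  simp

theorem mk_neg (n : ℕ) : mk (-((n : ℤ) + 1)) = n := by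
  unfold mk
  rw [if_neg (by omega)]
  have : (-(-((n : ℤ) + 1)) - 1) = n := by ring
  rw [this]
  simp

theorem mk_le {k : ℤ} {x : ℝ} (h1 : (k : ℝ) ≤ x) (h2 : x ≤ k + 1) : (mk k : ℝ) ≤ |x| := by
  unfold mk
  split_ifs with h
  · have e : ((k.toNat : ℕ) : ℝ) = (k : ℝ) := by
      have := Int.toNat_of_nonneg h
      exact_mod_cast this
    rw [e]
    exact h1.trans (le_abs_self x)
  · have e : (((-k - 1).toNat : ℕ) : ℝ) = -(k : ℝ) - 1 := by
      have := Int.toNat_of_nonneg (show 0 ≤ -k - 1 by omega)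
      have h3 : (((-k - 1).toNat : ℤ) : ℝ) = ((-k - 1 : ℤ) : ℝ) := by rw [this]
      push_cast at h3
      exact_mod_cast h3
    rw [e]
    have := neg_le_abs x
    linarith

theorem exp_le (n : ℕ) : ENNReal.ofReal (Real.exp (-(n : ℝ))) ≤ (2⁻¹ : ℝ≥0∞) ^ n := by
  have h1 : Real.exp (-1) ≤ 1 / 2 := by
    rw [Real.exp_neg, ← one_div]
    apply one_div_le_one_div_of_le (by norm_num)
    have := Real.add_one_le_exp (1 : ℝ)
    linarith
  have h2 : Real.exp (-(n : ℝ)) ≤ (1 / 2) ^ n := by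
    have : Real.exp (-(n : ℝ)) = Real.exp (-1) ^ n := by
      rw [← Real.exp_nat_mul]
      congr 1
      ring
    rw [this]
    exact pow_le_pow_left₀ (Real.exp_pos _).le h1 n
  calc ENNReal.ofReal (Real.exp (-(n : ℝ))) ≤ ENNReal.ofReal ((1 / 2) ^ n) :=
        ENNReal.ofReal_le_ofReal h2
    _ = (2⁻¹ : ℝ≥0∞) ^ n := by
        rw [ENNReal.ofReal_pow (by norm_num), one_div, ENNReal.ofReal_inv_of_pos (by norm_num)]
        norm_num

theorem geo : ∑' n : ℕ, ENNReal.ofReal (Real.exp (-(n : ℝ))) ≤ 2 := by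
  calc ∑' n : ℕ, ENNReal.ofReal (Real.exp (-(n : ℝ))) ≤ ∑' n : ℕ, (2⁻¹ : ℝ≥0∞) ^ n :=
        ENNReal.tsum_le_tsum exp_le
    _ = 2 := by
        rw [ENNReal.tsum_geometric, ENNReal.one_sub_inv_two, inv_inv]

theorem geoZ : ∑' k : ℤ, ENNReal.ofReal (Real.exp (-(mk k : ℝ))) ≤ 4 := by
  rw [tsum_of_nat_of_neg_add_one ENNReal.summable ENNReal.summable]
  simp only [mk_nat, mk_neg]
  calc _ ≤ (2 : ℝ≥0∞) + 2 := add_le_add geo geo
    _ = 4 := by norm_num

theorem strip : S_STRIP := by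
  intro Z C b g hC hb hZ hk hg
  set P : ℤ → Set (EuclideanSpace ℝ (Fin 2)) := fun k =>
    Z ∩ {p | (k : ℝ) ≤ p 0 ∧ p 0 ≤ k + 1 ∧ 0 ≤ p 1 ∧ p 1 ≤ 2 * Real.pi} with hP
  have hPm : ∀ k, MeasurableSet (P k) := by
    intro k
    refine (hZ.inter ?_).measurableSet
    have c0 : Continuous fun p : EuclideanSpace ℝ (Fin 2) => p 0 := by fun_prop
    have c1 : Continuous fun p : EuclideanSpace ℝ (Fin 2) => p 1 := by fun_prop
    exact (isClosed_le continuous_const c0).inter ((isClosed_le c0 continuous_const).inter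
      ((isClosed_le continuous_const c1).inter (isClosed_le c1 continuous_const)))
  have hsub : Z ∩ {p | 0 ≤ p 1 ∧ p 1 < 2 * Real.pi} ⊆ ⋃ k : ℤ, P k := by
    intro p hp
    rw [mem_iUnion]
    exact ⟨⌊p 0⌋, hp.1, Int.floor_le _, (Int.lt_floor_add_one _).le, hp.2.1, hp.2.2.le⟩
  calc ∫⁻ p in (Z ∩ {p | 0 ≤ p 1 ∧ p 1 < 2 * Real.pi}), ENNReal.ofReal (g (p 0)) ∂μH[1]
      ≤ ∫⁻ p in ⋃ k : ℤ, P k, ENNReal.ofReal (g (p 0)) ∂μH[1] := lintegral_mono_set hsub
    _ ≤ ∑' k : ℤ, ∫⁻ p in P k, ENNReal.ofReal (g (p 0)) ∂μH[1] := lintegral_iUnion_le _ _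
    _ ≤ ∑' k : ℤ, ENNReal.ofReal (C * b) * ENNReal.ofReal (Real.exp (-(mk k : ℝ))) := by
        refine ENNReal.tsum_le_tsum fun k => ?_
        calc ∫⁻ p in P k, ENNReal.ofReal (g (p 0)) ∂μH[1]
            ≤ ∫⁻ _ in P k, ENNReal.ofReal (b * Real.exp (-(mk k : ℝ))) ∂μH[1] := by
              refine setLIntegral_mono' (hPm k) fun p hp => ?_
              refine ENNReal.ofReal_le_ofReal ((hg _).trans ?_)
              refine mul_le_mul_of_nonneg_left (Real.exp_le_exp.mpr ?_) hb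
              have := mk_le hp.2.1 hp.2.2.1
              linarith
          _ = ENNReal.ofReal (b * Real.exp (-(mk k : ℝ))) * μH[1] (P k) := by
              rw [setLIntegral_const]
          _ ≤ ENNReal.ofReal (b * Real.exp (-(mk k : ℝ))) * ENNReal.ofReal C := by
              gcongr
              exact hk k
          _ = ENNReal.ofReal (C * b) * ENNReal.ofReal (Real.exp (-(mk k : ℝ))) := by
              rw [ENNReal.ofReal_mul hb, ENNReal.ofReal_mul hC]
              ring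
    _ = ENNReal.ofReal (C * b) * ∑' k : ℤ, ENNReal.ofReal (Real.exp (-(mk k : ℝ))) :=
        ENNReal.tsum_mul_left
    _ ≤ ENNReal.ofReal (C * b) * 4 := by
        gcongr
        exact geoZ
    _ = ENNReal.ofReal (4 * C * b) := by
        rw [mul_assoc, ENNReal.ofReal_mul (by norm_num : (0 : ℝ) ≤ 4), mul_comm]
        norm_num

end Pool.Agent.Y419.NL
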